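import Mathlib
import Pool.Agent.H79.CutEntropy

/-!
# A universal lower bound for cut-off times

Every sequence of cut-off times of a family of random walks on the symmetric groups based on
minimal generating sets is asymptotically at least `n`.
-/

namespace Pool.Agent.Results.MP_55bcd1_pr.EntropyLowerBound

open Filter Pool.Agent.H79.Cut

theorem result : ∀ t : ℕ → ℝ, IsCutoffTime t →
    ∀ δ : ℝ, δ < 1 → ∀ᶠ n : ℕ in atTop, δ * (n : ℝ) ≤ t n :=
  fun _ ht _ hδ => entropy_bound ht hδ

end Pool.Agent.Results.MP_55bcd1_pr.EntropyLowerBound
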