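import Mathlib
import Pool.Agent.H9.Low.T29

/-!
# Cut-off times of walks on the symmetric groups based on minimal generating sets

There is a constant `C` such that every real sequence `t` with `C n ≤ t n` for all large `n` and
`t n / (n³ log n) → 0` is a sequence of cut-off times of a family of random walks on the symmetric
groups based on minimal generating sets.

For `t n ≤ n (log n)²` the generating sets consist of wild permutations of a large part of the
points (the bulk), each multiplied by a transposition of its own private points, and of one further
permutation that exchanges private points with the bulk and moves a long queue of points.  The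
cut-off time is the time at which the queue has been emptied.  For larger `t n` the generating sets
are the transpositions along the edges of a broom.
-/

namespace Pool.Agent.Results.MP_55bcd1_pr.WindowFromOrderN

open Filter Topology Pool.Agent.H79.Cut

theorem result : ∃ C : ℝ, ∀ t : ℕ → ℝ,
    (∀ᶠ n : ℕ in atTop, C * (n : ℝ) ≤ t n) →
    Tendsto (fun n : ℕ => t n / ((n : ℝ) ^ 3 * Real.log n)) atTop (𝓝 0) →
    IsCutoffTime t :=
  Pool.Agent.H9.Low.window_all

end Pool.Agent.Results.MP_55bcd1_pr.WindowFromOrderN
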